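import Mathlib

section

set_option autoImplicit false

namespace Pool.Agent.Lib.MP_35943b_gt

/-- Length function on a group with values in the natural numbers. -/
structure IsLen {G : Type} [Group G] (len : G → ℕ) : Prop where
  one : len 1 = 0
  inv : ∀ g, len g⁻¹ = len g
  mul : ∀ g h, len (g * h) ≤ len g + len h

/-- Asymptotic property C of a set with a distance-like function, in coloured form:
each point receives a colour and a label; same colour and same label means bounded distance,
same colour and different labels means distance larger than the scale of the colour. -/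
def APC {X : Type} (d : X → X → ℕ) : Prop :=
  ∀ R : ℕ → ℕ, ∃ (T : Type) (n D : ℕ) (c : X → ℕ) (t : X → T),
    (∀ x, c x < n) ∧
    (∀ x y, c x = c y → t x = t y → d x y ≤ D) ∧
    (∀ x y, c x = c y → t x ≠ t y → R (c x) < d x y)

theorem APC.pullback {X Y : Type} {d : X → X → ℕ} (h : APC d) (f : Y → X) :
    APC (fun x y => d (f x) (f y)) := by
  intro R
  obtain ⟨T, n, D, c, t, h1, h2, h3⟩ := h R
  exact ⟨T, n, D, fun x => c (f x), fun x => t (f x), fun x => h1 _,
    fun x y => h2 _ _, fun x y => h3 _ _⟩

theorem APC.zero {X : Type} : APC (fun _ _ : X => 0) := by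
  intro R
  exact ⟨Unit, 1, 0, fun _ => 0, fun _ => (), fun x => Nat.zero_lt_one, fun _ _ _ _ => le_rfl,
    fun x y _ h => absurd rfl h⟩

theorem APC.congr {X : Type} {d d' : X → X → ℕ} (h : APC d) (hd : ∀ x y, d x y = d' x y) :
    APC d' := by
  have : d = d' := by funext x y; exact hd x y
  exact this ▸ h

/-- The key combination lemma (product theorem in diagonal form). -/
theorem APC.max {X : Type} {d1 d2 : X → X → ℕ} (h1 : APC d1) (h2 : APC d2) :
    APC (fun x y => Max.max (d1 x y) (d2 x y)) := by
  intro R
  choose T2 n2 D2 c2 t2 hc2 hb2 hs2 using fun i : ℕ => h2 (fun j => R (Nat.pair i j))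
  obtain ⟨T1, n1, D1, c1, t1, hc1, hb1, hs1⟩ :=
    h1 (fun i => (Finset.range (n2 i)).sup (fun j => R (Nat.pair i j)))
  have key : ∀ x y, c1 x = c1 y → (⟨c1 y, t2 (c1 y) y⟩ : Σ i, T2 i) = ⟨c1 x, t2 (c1 x) y⟩ := by
    intro x y h
    rw [h]
  refine ⟨T1 × (Σ i, T2 i),
    (Finset.range n1).sup (fun i => (Finset.range (n2 i)).sup (fun j => Nat.pair i j)) + 1,
    Max.max D1 ((Finset.range n1).sup D2),
    fun x => Nat.pair (c1 x) (c2 (c1 x) x),
    fun x => (t1 x, ⟨c1 x, t2 (c1 x) x⟩), ?_, ?_, ?_⟩
  · intro x
    apply Nat.lt_succ_of_le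
    calc Nat.pair (c1 x) (c2 (c1 x) x)
        ≤ (Finset.range (n2 (c1 x))).sup (fun j => Nat.pair (c1 x) j) :=
          Finset.le_sup (f := fun j => Nat.pair (c1 x) j) (Finset.mem_range.2 (hc2 (c1 x) x))
      _ ≤ _ := Finset.le_sup
          (f := fun i => (Finset.range (n2 i)).sup (fun j => Nat.pair i j))
          (Finset.mem_range.2 (hc1 x))
  · intro x y hc ht
    rw [Nat.pair_eq_pair] at hc
    obtain ⟨hc, hc'⟩ := hc
    rw [Prod.mk.injEq] at ht
    obtain ⟨ht, ht'⟩ := ht
    rw [key x y hc] at ht'
    rw [← hc] at hc'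
    have ht2 : t2 (c1 x) x = t2 (c1 x) y := by
      simpa using ht'
    apply max_le_max
    · exact hb1 x y hc ht
    · refine (hb2 (c1 x) x y hc' ht2).trans ?_
      exact Finset.le_sup (f := D2) (Finset.mem_range.2 (hc1 x))
  · intro x y hc ht
    rw [Nat.pair_eq_pair] at hc
    obtain ⟨hc, hc'⟩ := hc
    rw [← hc] at hc'
    by_cases h : t1 x = t1 y
    · have ht2 : t2 (c1 x) x ≠ t2 (c1 x) y := by
        intro h'
        apply ht
        rw [Prod.mk.injEq, key x y hc, h']
        exact ⟨h, rfl⟩
      exact lt_max_of_lt_right (hs2 (c1 x) x y hc' ht2)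
    · refine lt_max_of_lt_left (lt_of_le_of_lt ?_ (hs1 x y hc h))
      exact Finset.le_sup (f := fun j => R (Nat.pair (c1 x) j))
        (Finset.mem_range.2 (hc2 (c1 x) x))

theorem APC.finset_sup {X V : Type} (d : V → X → X → ℕ) (h : ∀ v, APC (d v)) (s : Finset V) :
    APC (fun x y => s.sup (fun v => d v x y)) := by
  classical
  induction s using Finset.induction_on with
  | empty => simpa using APC.zero
  | insert a s ha ih =>
    simp only [Finset.sup_insert]
    exact APC.max (h a) ih

end Pool.Agent.Lib.MP_35943b_gt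
end

section

set_option autoImplicit false

namespace Pool.Agent.Lib.MP_35943b_gt

theorem finite_lists {α : Type} (S : Set α) (hS : S.Finite) (n : ℕ) :
    {l : List α | l.length ≤ n ∧ ∀ x ∈ l, x ∈ S}.Finite := by
  have : Finite S := hS
  have h1 := (List.finite_length_le S n).image (List.map (Subtype.val : S → α))
  apply h1.subset
  rintro l ⟨hl, hx⟩
  refine ⟨l.attach.map (fun x => ⟨x.1, hx x.1 x.2⟩), ?_, ?_⟩
  · simpa using hl
  · simp [List.map_map, Function.comp_def]

/-- Every countable group has a proper length function. -/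
theorem exists_proper_len (G : Type) [Group G] [Countable G] :
    ∃ len : G → ℕ, IsLen len ∧ (∀ g, len g = 0 → g = 1) ∧ ∀ R, {g | len g ≤ R}.Finite := by
  classical
  obtain ⟨e, he⟩ := exists_injective_nat G
  let wt : G → ℕ := fun g => e g + e g⁻¹ + 1
  have hwt1 : ∀ g, 1 ≤ wt g := fun g => by simp [wt]
  have hwtinv : ∀ g, wt g⁻¹ = wt g := fun g => by simp only [wt, inv_inv]; omega
  let S : G → Set ℕ := fun g => {k | ∃ l : List G, l.prod = g ∧ (l.map wt).sum = k}
  have hne : ∀ g, (S g).Nonempty := fun g => ⟨(([g] : List G).map wt).sum, [g], by simp, rfl⟩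
  let len : G → ℕ := fun g => sInf (S g)
  have hmem : ∀ g, ∃ l : List G, l.prod = g ∧ (l.map wt).sum = len g := fun g => Nat.sInf_mem (hne g)
  have hle : ∀ l : List G, len l.prod ≤ (l.map wt).sum := fun l => Nat.sInf_le ⟨l, rfl, rfl⟩
  have hlen_le : ∀ l : List G, l.length ≤ (l.map wt).sum := by
    intro l
    induction l with
    | nil => simp
    | cons a l ih =>
      have := hwt1 a
      simp only [List.length_cons, List.map_cons, List.sum_cons]
      omega
  have hmem_le : ∀ l : List G, ∀ x ∈ l, wt x ≤ (l.map wt).sum := by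
    intro l x hx
    exact List.single_le_sum (fun _ _ => Nat.zero_le _) _ (List.mem_map_of_mem hx)
  refine ⟨len, ⟨?_, ?_, ?_⟩, ?_, ?_⟩
  · have := hle []
    simpa using this
  · have key : ∀ g, len g⁻¹ ≤ len g := by
      intro g
      obtain ⟨l, hl, hs⟩ := hmem g
      have h1 := hle (l.map fun x => x⁻¹).reverse
      rw [← List.prod_inv_reverse, hl] at h1
      refine h1.trans ?_
      rw [← hs, List.map_reverse, List.sum_reverse, List.map_map]
      apply le_of_eq
      congr 1
      apply List.map_congr_left
      intro x _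
      exact hwtinv x
    intro g
    apply le_antisymm (key g)
    have := key g⁻¹
    rwa [inv_inv] at this
  · intro g h
    obtain ⟨l, hl, hs⟩ := hmem g
    obtain ⟨l', hl', hs'⟩ := hmem h
    have h1 := hle (l ++ l')
    rw [List.prod_append, hl, hl', List.map_append, List.sum_append, hs, hs'] at h1
    exact h1
  · intro g hg
    obtain ⟨l, hl, hs⟩ := hmem g
    have h1 := hlen_le l
    rw [hs, hg] at h1
    have h2 : l = [] := List.length_eq_zero_iff.1 (by omega)
    rw [← hl, h2]; rfl
  · intro R
    have hfin : {g | wt g ≤ R}.Finite := by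
      apply Set.Finite.subset ((Set.finite_Iic R).preimage he.injOn)
      intro g hg
      simp only [Set.mem_setOf_eq, wt] at hg
      simp only [Set.mem_preimage, Set.mem_Iic]
      omega
    apply ((finite_lists {g | wt g ≤ R} hfin R).image List.prod).subset
    intro g hg
    obtain ⟨l, hl, hs⟩ := hmem g
    simp only [Set.mem_setOf_eq] at hg
    refine ⟨l, ⟨?_, ?_⟩, hl⟩
    · have := hlen_le l
      omega
    · intro x hx
      have := hmem_le l x hx
      simp only [Set.mem_setOf_eq]
      omega

end Pool.Agent.Lib.MP_35943b_gt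
end

section

set_option autoImplicit false

namespace Pool.Agent.Lib.MP_35943b_gt

open Classical in
section

variable {I G : Type} [Group G] (len : G → ℕ)

/-- weighted length of a list of syllables -/
def wlen : List (Σ _ : I, G) → ℕ
  | [] => 0
  | s :: l => len s.2 + wlen l

@[simp] theorem wlen_nil : wlen len ([] : List (Σ _ : I, G)) = 0 := rfl
@[simp] theorem wlen_cons (s : Σ _ : I, G) (l : List (Σ _ : I, G)) :
    wlen len (s :: l) = len s.2 + wlen len l := rfl

/-- distance between two lists of syllables (tree of copies of `G`) -/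
noncomputable def dst : List (Σ _ : I, G) → List (Σ _ : I, G) → ℕ
  | [], l' => wlen len l'
  | s :: l, [] => wlen len (s :: l)
  | s :: l, s' :: l' =>
    if s.1 = s'.1 then
      (if s.2 = s'.2 then dst l l' else len (s.2⁻¹ * s'.2) + wlen len l + wlen len l')
    else wlen len (s :: l) + wlen len (s' :: l')

/-- cut a list at level `r` -/
noncomputable def cut : List (Σ _ : I, G) → ℕ → List (Σ _ : I, G) × Option (Σ _ : I, G)
  | [], _ => ([], none)
  | s :: l, r =>
    if r = 0 then ([], none)
    else if r ≤ len s.2 then ([], some s)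
    else (s :: (cut l (r - len s.2)).1, (cut l (r - len s.2)).2)

theorem dst_nil_left (l : List (Σ _ : I, G)) : dst len [] l = wlen len l := by
  rw [dst]

theorem dst_nil_right (l : List (Σ _ : I, G)) : dst len l [] = wlen len l := by
  cases l <;> simp [dst]

theorem dst_cons_cons (s s' : Σ _ : I, G) (l l' : List (Σ _ : I, G)) :
    dst len (s :: l) (s' :: l') = if s.1 = s'.1 then
      (if s.2 = s'.2 then dst len l l' else len (s.2⁻¹ * s'.2) + wlen len l + wlen len l')
    else wlen len (s :: l) + wlen len (s' :: l') := by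
  rw [dst]

theorem IsLen.le_of_inv_mul {len : G → ℕ} (h : IsLen len) (g g' : G) :
    len g' ≤ len g + len (g⁻¹ * g') := by
  have := h.mul g (g⁻¹ * g')
  simpa using this

theorem IsLen.symm_inv_mul {len : G → ℕ} (h : IsLen len) (g g' : G) :
    len (g⁻¹ * g') = len (g'⁻¹ * g) := by
  rw [← h.inv (g⁻¹ * g')]
  simp

theorem IsLen.inv_mul_le {len : G → ℕ} (h : IsLen len) (g g' : G) :
    len (g⁻¹ * g') ≤ len g + len g' := by
  have := h.mul g⁻¹ g'
  rwa [h.inv] at this

variable {len}

theorem dst_self (h : IsLen len) (l : List (Σ _ : I, G)) : dst len l l = 0 := by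
  induction l with
  | nil => simp [dst]
  | cons s l ih => simp [dst_cons_cons, ih]

theorem dst_symm (h : IsLen len) (l l' : List (Σ _ : I, G)) : dst len l l' = dst len l' l := by
  induction l generalizing l' with
  | nil => rw [dst_nil_left, dst_nil_right]
  | cons s l ih =>
    cases l' with
    | nil => rw [dst_nil_left, dst_nil_right]
    | cons s' l' =>
      rw [dst_cons_cons, dst_cons_cons]
      by_cases h1 : s.1 = s'.1
      · by_cases h2 : s.2 = s'.2
        · rw [if_pos h1, if_pos h2, if_pos h1.symm, if_pos h2.symm, ih]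
        · rw [if_pos h1, if_neg h2, if_pos h1.symm, if_neg (Ne.symm h2), h.symm_inv_mul]
          omega
      · rw [if_neg h1, if_neg (Ne.symm h1)]
        omega

theorem dst_le (h : IsLen len) (l l' : List (Σ _ : I, G)) :
    dst len l l' ≤ wlen len l + wlen len l' := by
  induction l generalizing l' with
  | nil => rw [dst_nil_left]; omega
  | cons s l ih =>
    cases l' with
    | nil => rw [dst_nil_right]; omega
    | cons s' l' =>
      rw [dst_cons_cons]
      have h1 := h.inv_mul_le s.2 s'.2
      have h2 := ih l'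
      simp only [wlen_cons]
      split_ifs <;> omega

theorem wlen_le (h : IsLen len) (l l' : List (Σ _ : I, G)) :
    wlen len l' ≤ wlen len l + dst len l l' := by
  induction l generalizing l' with
  | nil => rw [dst_nil_left]; omega
  | cons s l ih =>
    cases l' with
    | nil => simp
    | cons s' l' =>
      rw [dst_cons_cons]
      have h1 := h.le_of_inv_mul s.2 s'.2
      have h2 := ih l'
      simp only [wlen_cons]
      split_ifs with h3 h4
      · rw [h4]; omega
      · omega
      · omega

theorem cut_cons_pos {s : Σ _ : I, G} {l : List (Σ _ : I, G)} {r : ℕ} (h0 : 0 < r)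
    (h : r ≤ len s.2) : cut len (s :: l) r = ([], some s) := by
  rw [cut, if_neg (by omega), if_pos h]

theorem cut_cons_neg {s : Σ _ : I, G} {l : List (Σ _ : I, G)} {r : ℕ}
    (h : len s.2 < r) : cut len (s :: l) r =
      (s :: (cut len l (r - len s.2)).1, (cut len l (r - len s.2)).2) := by
  rw [cut, if_neg (by omega), if_neg (by omega)]

/-- Points of a far annulus that are close lie behind the same piece. -/
theorem cut_of_close (h : IsLen len) (M : ℕ) (l l' : List (Σ _ : I, G)) (r : ℕ) (hr : 0 < r)
    (hl : r + M ≤ wlen len l) (hl' : r + M ≤ wlen len l') (hd : dst len l l' < 2 * M) :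
    ∃ p i g g', cut len l r = (p, some ⟨i, g⟩) ∧ cut len l' r = (p, some ⟨i, g'⟩) ∧
      len (g⁻¹ * g') ≤ dst len l l' := by
  induction l generalizing l' r with
  | nil => simp at hl; omega
  | cons s l ih =>
    cases l' with
    | nil => simp at hl'; omega
    | cons s' l' =>
      obtain ⟨i, g⟩ := s
      obtain ⟨i', g'⟩ := s'
      rw [dst_cons_cons] at hd ⊢
      simp only [wlen_cons] at hl hl' hd ⊢
      by_cases h1 : i = i'
      · subst h1
        rw [if_pos rfl] at hd ⊢
        by_cases h2 : g = g'
        · subst h2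
          rw [if_pos rfl] at hd ⊢
          by_cases h3 : r ≤ len g
          · refine ⟨[], i, g, g, ?_, ?_, ?_⟩
            · rw [cut_cons_pos hr h3]
            · rw [cut_cons_pos hr h3]
            · simp [h.one]
          · push Not at h3
            obtain ⟨p, j, a, a', h4, h5, h6⟩ := ih l' (r - len g) (by omega) (by omega)
              (by omega) hd
            refine ⟨⟨i, g⟩ :: p, j, a, a', ?_, ?_, h6⟩
            · rw [cut_cons_neg (by simpa using h3)]
              simp [h4]
            · rw [cut_cons_neg (by simpa using h3)]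
              simp [h5]
        · rw [if_neg h2] at hd ⊢
          have h3 := h.le_of_inv_mul g g'
          have h4 := h.le_of_inv_mul g' g
          rw [h.symm_inv_mul g' g] at h4
          by_cases h5 : r ≤ len g
          · by_cases h6 : r ≤ len g'
            · refine ⟨[], i, g, g', ?_, ?_, by omega⟩
              · rw [cut_cons_pos hr h5]
              · rw [cut_cons_pos hr h6]
            · exfalso; omega
          · exfalso; omega
      · rw [if_neg h1] at hd
        exfalso; omega

theorem dst_le_of_cut (h : IsLen len) (l l' : List (Σ _ : I, G)) (r : ℕ)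
    (p : List (Σ _ : I, G)) (i : I) (g g' : G)
    (h1 : cut len l r = (p, some ⟨i, g⟩)) (h2 : cut len l' r = (p, some ⟨i, g'⟩)) :
    dst len l l' ≤ len (g⁻¹ * g') + (wlen len l - r) + (wlen len l' - r) := by
  induction p generalizing l l' r with
  | nil =>
    cases l with
    | nil => simp [cut] at h1
    | cons s l =>
      cases l' with
      | nil => simp [cut] at h2
      | cons s' l' =>
        rw [cut] at h1 h2
        split_ifs at h1 with h3 h4
        · simp at h1
        · rw [if_neg h3] at h2
          split_ifs at h2 with h5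
          · simp only [Prod.mk.injEq, Option.some.injEq, true_and] at h1 h2
            subst h1 h2
            rw [dst_cons_cons]
            simp only [wlen_cons, if_true]
            have h6 := dst_le h l l'
            simp only at h4 h5
            split_ifs <;> omega
          · simp at h2
        · simp at h1
  | cons s0 p ih =>
    cases l with
    | nil => simp [cut] at h1
    | cons s l =>
      cases l' with
      | nil => simp [cut] at h2
      | cons s' l' =>
        rw [cut] at h1 h2
        split_ifs at h1 with h3 h4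
        · simp at h1
        · simp at h1
        · rw [if_neg h3] at h2
          split_ifs at h2 with h5
          · simp at h2
          · simp only [Prod.mk.injEq, List.cons.injEq] at h1 h2
            obtain ⟨⟨rfl, h1⟩, h1'⟩ := h1
            obtain ⟨⟨rfl, h2⟩, h2'⟩ := h2
            have h6 := ih l l' (r - len s'.2) (Prod.ext h1 h1') (Prod.ext h2 h2')
            rw [dst_cons_cons]
            simp only [wlen_cons, if_true]
            omega

/-- Trees of copies of a group with asymptotic property C have asymptotic property C. -/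
theorem apc_tree (h : IsLen len) (hG : APC (fun x y : G => len (x⁻¹ * y))) :
    APC (dst len : List (Σ _ : I, G) → List (Σ _ : I, G) → ℕ) := by
  intro R
  obtain ⟨T, n, D, c, t, hc, hb, hs⟩ := hG (fun j => R (2 * j) + R (2 * j + 1))
  -- the width of the annuli
  set M : ℕ := (Finset.range (2 * n + 2)).sup R + 1 with hM
  have hMpos : 0 < M := by omega
  have hRM : ∀ j, j < 2 * n + 2 → R j < M := by
    intro j hj
    have := Finset.le_sup (f := R) (Finset.mem_range.2 hj)
    omega
  let k : List (Σ _ : I, G) → ℕ := fun l => wlen len l / M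
  let o : List (Σ _ : I, G) → List (Σ _ : I, G) × Option (Σ _ : I, G) :=
    fun l => cut len l ((k l - 1) * M)
  let c' : List (Σ _ : I, G) → ℕ := fun l =>
    2 * (match (o l).2 with | none => 0 | some s => c s.2) + k l % 2
  let t' : List (Σ _ : I, G) → ℕ × List (Σ _ : I, G) × Option (I × T) := fun l =>
    (k l, (o l).1, (o l).2.map (fun s => (s.1, t s.2)))
  have hk1 : ∀ l, k l * M ≤ wlen len l := fun l => Nat.div_mul_le_self _ _
  have hk2 : ∀ l, wlen len l < (k l + 1) * M := fun l => by
    have := Nat.lt_div_mul_add (a := wlen len l) hMpos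
    have h2 : (k l + 1) * M = k l * M + M := by ring
    rw [h2]; exact this
  -- every far point has a genuine cut
  have hcut : ∀ l, 0 < (k l - 1) * M → ∃ p i g, cut len l ((k l - 1) * M) = (p, some ⟨i, g⟩) := by
    intro l hl
    have h1 : (k l - 1) * M + M ≤ wlen len l := by
      have h2 : 0 < k l - 1 := Nat.pos_of_mul_pos_right hl
      have h3 : (k l - 1) * M + M = k l * M := by
        have : k l = (k l - 1) + 1 := by omega
        conv_rhs => rw [this]
        ring
      rw [h3]; exact hk1 l
    obtain ⟨p, i, g, g', h2, -, -⟩ := cut_of_close h M l l ((k l - 1) * M) hl h1 h1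
      (by rw [dst_self h]; omega)
    exact ⟨p, i, g, h2⟩
  have hcut0 : ∀ l : List (Σ _ : I, G), cut len l 0 = ([], none) := by
    intro l
    cases l <;> simp [cut]
  refine ⟨_, 2 * n + 2, 4 * M + D, c', t', ?_, ?_, ?_⟩
  · intro l
    have h2 : k l % 2 < 2 := Nat.mod_lt _ (by omega)
    rcases h1 : (o l).2 with _ | s
    · simp only [c', h1]; omega
    · have := hc s.2
      simp only [c', h1]; omega
  · intro l l' hc1 ht1
    simp only [t', Prod.mk.injEq] at ht1
    obtain ⟨hk, ho1, ho2⟩ := ht1
    have hl := hk2 l
    have hl' := hk2 l'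
    rw [← hk] at hl'
    by_cases hr : 0 < (k l - 1) * M
    · obtain ⟨p, i, g, h1⟩ := hcut l hr
      obtain ⟨p', i', g', h2⟩ := hcut l' (hk ▸ hr)
      simp only [o, h1, h2] at ho1 ho2
      simp only [Option.map_some, Option.some.injEq, Prod.mk.injEq] at ho2
      obtain ⟨rfl, ht⟩ := ho2
      subst ho1
      simp only [c', o, h1, h2] at hc1
      have hcc : c g = c g' := by omega
      rw [← hk] at h2
      have h3 := dst_le_of_cut h l l' _ p i g g' h1 h2
      have h4 := hb g g' hcc ht
      simp only at h4
      have h5 : (k l + 1) * M = (k l - 1) * M + 2 * M := by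
        have h2 : 0 < k l - 1 := Nat.pos_of_mul_pos_right hr
        have : k l + 1 = (k l - 1) + 2 := by omega
        rw [this]; ring
      omega
    · have h1 : (k l + 1) * M ≤ 2 * M := by
        have : k l + 1 ≤ 2 := by
          by_contra hcon
          apply hr
          apply Nat.mul_pos <;> omega
        exact Nat.mul_le_mul_right _ this
      have := dst_le h l l'
      omega
  · intro l l' hc1 ht1
    have hl := hk2 l
    have hl' := hk2 l'
    have hcl : c' l < 2 * n + 2 := by
      have h2 : k l % 2 < 2 := Nat.mod_lt _ (by omega)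
      rcases h1 : (o l).2 with _ | s
      · simp only [c', h1]; omega
      · have := hc s.2
        simp only [c', h1]; omega
    have hRc := hRM _ hcl
    by_cases hk : k l = k l'
    · by_cases hr : 0 < (k l - 1) * M
      · by_contra hcon
        push Not at hcon
        have h1 : (k l - 1) * M + M = k l * M := by
          have h2 : 0 < k l - 1 := Nat.pos_of_mul_pos_right hr
          have : k l = (k l - 1) + 1 := by omega
          conv_rhs => rw [this]
          ring
        obtain ⟨p, i, g, g', h2, h3, h4⟩ := cut_of_close h M l l' ((k l - 1) * M) hr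
          (by rw [h1]; exact hk1 l) (by rw [h1, hk]; exact hk1 l')
          (by omega)
        have h3' := h3
        rw [hk] at h3'
        simp only [c', o, h2, h3'] at hc1
        have hcc : c g = c g' := by omega
        have htt : t g ≠ t g' := by
          intro htt
          apply ht1
          simp only [t', o, h2, h3', htt, Option.map_some, Prod.mk.injEq, and_true]
          exact hk
        have h5 := hs g g' hcc htt
        simp only [c', o, h2] at hcon
        simp only at h5
        have h6 : R (2 * c g + k l % 2) ≤ R (2 * c g) + R (2 * c g + 1) := by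
          rcases Nat.mod_two_eq_zero_or_one (k l) with h7 | h7 <;> rw [h7] <;> simp
        omega
      · exfalso
        apply ht1
        have h1 : (k l - 1) * M = 0 := by omega
        have h2 : (k l' - 1) * M = 0 := by rw [← hk]; omega
        simp only [t', o, h1, h2, hcut0, Prod.mk.injEq, Option.map_none, and_true]
        exact hk
    · have hpar : k l % 2 = k l' % 2 := by
        simp only [c'] at hc1
        have h2 : k l % 2 < 2 := Nat.mod_lt _ (by omega)
        have h3 : k l' % 2 < 2 := Nat.mod_lt _ (by omega)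
        omega
      have hw1 := wlen_le h l l'
      have hw2 := wlen_le h l' l
      rw [dst_symm h l' l] at hw2
      have h1 := hk1 l
      have h2 := hk1 l'
      rcases Nat.lt_or_gt_of_ne hk with hlt | hlt
      · have h3 : (k l + 1) * M + M ≤ k l' * M := by
          have : (k l + 1) * M + M = (k l + 2) * M := by ring
          rw [this]
          exact Nat.mul_le_mul_right _ (by omega)
        omega
      · have h3 : (k l' + 1) * M + M ≤ k l * M := by
          have : (k l' + 1) * M + M = (k l' + 2) * M := by ring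
          rw [this]
          exact Nat.mul_le_mul_right _ (by omega)
        omega

end

end Pool.Agent.Lib.MP_35943b_gt
end

section

set_option autoImplicit false

namespace Pool.Agent.Lib.MP_35943b_gt

open Monoid Monoid.CoprodI

open Classical in
section

variable {I G : Type} [Group G] {len : G → ℕ}

theorem dst_cons_of_ne (h : IsLen len) (i : I) (g : G) (t : List (Σ _ : I, G))
    (w : Word (fun _ : I => G)) (hw : w.fstIdx ≠ some i) :
    dst len (⟨i, g⟩ :: t) w.toList = wlen len (⟨i, g⟩ :: t) + wlen len w.toList := by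
  rcases hl : w.toList with _ | ⟨s, l⟩
  · rw [dst_nil_right]; simp
  · rw [dst_cons_cons, if_neg]
    intro h1
    apply hw
    simp [Word.fstIdx, hl, ← h1]

theorem dst_rcons (h : IsLen len) (i : I) (p q : Word.Pair (fun _ : I => G) i) :
    dst len (Word.rcons p).toList (Word.rcons q).toList =
      if p.head = q.head then dst len p.tail.toList q.tail.toList
      else len (p.head⁻¹ * q.head) + wlen len p.tail.toList + wlen len q.tail.toList := by
  unfold Word.rcons
  by_cases hp : p.head = 1
  · by_cases hq : q.head = 1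
    · rw [dif_pos hp, dif_pos hq, if_pos (hp.trans hq.symm)]
    · rw [dif_pos hp, dif_neg hq, if_neg (by rw [hp]; exact Ne.symm hq), Word.cons, hp,
        dst_symm h, dst_cons_of_ne h _ _ _ _ p.fstIdx_ne]
      simp only [wlen_cons, inv_one, one_mul]
      omega
  · by_cases hq : q.head = 1
    · rw [dif_neg hp, dif_pos hq, if_neg (by rw [hq]; exact hp), Word.cons, hq,
        dst_cons_of_ne h _ _ _ _ q.fstIdx_ne]
      simp only [wlen_cons, mul_one, h.inv]
    · rw [dif_neg hp, dif_neg hq, Word.cons, Word.cons]
      simp only [dst_cons_cons, if_true]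

theorem dst_of_smul (h : IsLen len) (i : I) (m : G) (w w' : Word (fun _ : I => G)) :
    dst len ((of (M := fun _ : I => G) (i := i) m) • w).toList
      ((of (M := fun _ : I => G) (i := i) m) • w').toList = dst len w.toList w'.toList := by
  conv_rhs => rw [← (Word.equivPair i).symm_apply_apply w, ← (Word.equivPair i).symm_apply_apply w',
    Word.equivPair_symm, Word.equivPair_symm]
  rw [Word.of_smul_def, Word.of_smul_def, dst_rcons h, dst_rcons h]
  simp only [mul_right_inj, mul_inv_rev]
  congr 4
  group

theorem dst_smul (h : IsLen len) (x : CoprodI (fun _ : I => G)) (w w' : Word (fun _ : I => G)) :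
    dst len (x • w).toList (x • w').toList = dst len w.toList w'.toList := by
  induction x using CoprodI.induction_left generalizing w w' with
  | one => simp
  | mul m x ih =>
    rw [mul_smul, mul_smul, dst_of_smul h, ih]

/-- the list of syllables of the reduced word of an element -/
noncomputable def lst (x : CoprodI (fun _ : I => G)) : List (Σ _ : I, G) :=
  (Word.equiv x).toList

theorem lst_one : lst (1 : CoprodI (fun _ : I => G)) = [] := by
  simp [lst, Word.equiv]

theorem lst_eq_nil {x : CoprodI (fun _ : I => G)} (hx : lst x = []) : x = 1 := by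
  have h1 : Word.equiv x = Word.empty := by
    apply Word.ext
    exact hx
  have h2 := congrArg Word.equiv.symm h1
  rw [Equiv.symm_apply_apply] at h2
  rw [h2]
  rfl

theorem dst_lst (h : IsLen len) (x y : CoprodI (fun _ : I => G)) :
    dst len (lst x) (lst y) = wlen len (lst (x⁻¹ * y)) := by
  have h1 := dst_smul h x⁻¹ (x • (Word.empty : Word (fun _ : I => G)))
    (y • (Word.empty : Word (fun _ : I => G)))
  rw [← mul_smul, ← mul_smul, inv_mul_cancel, one_smul] at h1
  have h2 : dst len (lst x) (lst y) = dst len (x • (Word.empty : Word (fun _ : I => G))).toList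
    (y • (Word.empty : Word (fun _ : I => G))).toList := rfl
  have h3 : wlen len (lst (x⁻¹ * y)) =
    wlen len ((x⁻¹ * y) • (Word.empty : Word (fun _ : I => G))).toList := rfl
  rw [h2, h3, ← h1]
  exact dst_nil_left _ _

/-- The reduced word with a given list. -/
theorem lst_prod (w : Word (fun _ : I => G)) : lst w.prod = w.toList := by
  unfold lst
  have : Word.equiv w.prod = w := Word.equiv.apply_symm_apply w
  rw [this]

/-- permutation of the free factors -/
noncomputable def perm (e : I → I) : CoprodI (fun _ : I => G) →* CoprodI (fun _ : I => G) :=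
  CoprodI.lift (fun i => CoprodI.of (M := fun _ : I => G) (i := e i))

@[simp] theorem perm_of (e : I → I) (i : I) (g : G) :
    perm e (of (M := fun _ : I => G) (i := i) g) = of (M := fun _ : I => G) (i := e i) g := by
  simp [perm]

theorem perm_id : perm (G := G) (id : I → I) = MonoidHom.id _ := by
  apply CoprodI.ext_hom
  intro i
  ext g
  simp

theorem perm_comp (e f : I → I) : perm (G := G) (e ∘ f) = (perm e).comp (perm f) := by
  apply CoprodI.ext_hom
  intro i
  ext g
  simp

theorem perm_perm (e f : I → I) (x : CoprodI (fun _ : I => G)) :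
    perm e (perm f x) = perm (e ∘ f) x := by
  rw [perm_comp]; rfl

/-- The word with permuted indices. -/
def wordMap (e : I → I) (he : Function.Injective e) (w : Word (fun _ : I => G)) :
    Word (fun _ : I => G) where
  toList := w.toList.map (fun s => ⟨e s.1, s.2⟩)
  ne_one := by
    intro l hl
    rw [List.mem_map] at hl
    obtain ⟨s, hs, rfl⟩ := hl
    exact w.ne_one s hs
  chain_ne := by
    rw [List.isChain_map]
    exact w.chain_ne.imp (fun a b hab h => hab (he h))

theorem prod_wordMap (e : I → I) (he : Function.Injective e) (w : Word (fun _ : I => G)) :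
    (wordMap e he w).prod = perm e w.prod := by
  simp [Word.prod, wordMap, List.map_map, map_list_prod, Function.comp_def]

theorem lst_perm (e : I → I) (he : Function.Injective e) (x : CoprodI (fun _ : I => G)) :
    lst (perm e x) = (lst x).map (fun s => ⟨e s.1, s.2⟩) := by
  have h1 : x = (Word.equiv x).prod := (Word.equiv.symm_apply_apply x).symm
  conv_lhs => rw [h1, ← prod_wordMap e he, lst_prod]
  try rfl

theorem wlen_map (e : I → I) (l : List (Σ _ : I, G)) :
    wlen len (l.map (fun s => (⟨e s.1, s.2⟩ : Σ _ : I, G))) = wlen len l := by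
  induction l with
  | nil => rfl
  | cons s l ih => simp [ih]

end

end Pool.Agent.Lib.MP_35943b_gt
end

section

set_option autoImplicit false

namespace Pool.Agent.Lib.MP_35943b_gt

open Monoid Monoid.CoprodI

open Classical in
section

variable {V : Type} (Γ : SimpleGraph V) {G : V → Type} [∀ v, Group (G v)]
  {H : Type} [Group H] (ι : ∀ v, G v →* H)

/-- subgroup generated by the vertex groups in the star of `v` -/
def starSub (v : V) : Subgroup H :=
  ⨆ w : {w : V // w = v ∨ Γ.Adj v w}, (ι w.1).range

theorem mem_starSub {v w : V} (h : w = v ∨ Γ.Adj v w) (g : G w) : ι w g ∈ starSub Γ ι v :=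
  (le_iSup (fun w : {w : V // w = v ∨ Γ.Adj v w} => (ι w.1).range) ⟨w, h⟩) ⟨g, rfl⟩

/-- the action on the index set as a function -/
def act (v : V) (x : H) : H ⧸ starSub Γ ι v → H ⧸ starSub Γ ι v := fun i => x • i

theorem act_inj (v : V) (x : H) : Function.Injective (act Γ ι v x) :=
  MulAction.injective x

theorem act_comp (v : V) (x y : H) : act Γ ι v x ∘ act Γ ι v y = act Γ ι v (x * y) := by
  funext i
  exact (mul_smul x y i).symm

theorem act_one (v : V) : act Γ ι v 1 = id := by
  funext i
  exact one_smul H i

/-- base point of the index set -/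
def base (v : V) : H ⧸ starSub Γ ι v := ((1 : H) : H ⧸ starSub Γ ι v)

theorem act_base {v : V} {x : H} : act Γ ι v x (base Γ ι v) = base Γ ι v ↔
    x ∈ starSub Γ ι v := by
  unfold act base
  change ((x * 1 : H) : H ⧸ starSub Γ ι v) = ((1 : H) : H ⧸ starSub Γ ι v) ↔ _
  rw [mul_one, eq_comm, QuotientGroup.eq]
  simp

/-- the free product attached to `v` -/
abbrev NN (v : V) : Type := CoprodI (fun _ : H ⧸ starSub Γ ι v => G v)

/-- the action of `H` on the free product -/
noncomputable def actAut (v : V) : H →* MulAut (NN Γ ι v) where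
  toFun x :=
    { toFun := perm (act Γ ι v x)
      invFun := perm (act Γ ι v x⁻¹)
      left_inv := by
        intro y
        rw [perm_perm, act_comp, inv_mul_cancel, act_one, perm_id]; rfl
      right_inv := by
        intro y
        rw [perm_perm, act_comp, mul_inv_cancel, act_one, perm_id]; rfl
      map_mul' := fun a b => map_mul _ a b }
  map_one' := by
    ext y
    change perm (act Γ ι v 1) y = y
    rw [act_one, perm_id]; rfl
  map_mul' x y := by
    ext z
    change perm (act Γ ι v (x * y)) z = perm (act Γ ι v x) (perm (act Γ ι v y) z)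
    rw [perm_perm, act_comp]

theorem actAut_apply (v : V) (x : H) (y : NN Γ ι v) :
    actAut Γ ι v x y = perm (act Γ ι v x) y := rfl

/-- projection `G u → G v` that is the identity for `u = v` and trivial otherwise -/
noncomputable def del (u v : V) (g : G u) : G v := (Pi.mulSingle u g : ∀ w, G w) v

theorem del_same (v : V) (g : G v) : del v v g = g := Pi.mulSingle_eq_same v g
theorem del_ne {u v : V} (h : u ≠ v) (g : G u) : del u v g = 1 := Pi.mulSingle_eq_of_ne (Ne.symm h) g
theorem del_one (u v : V) : del u v (1 : G u) = 1 := by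
  unfold del; rw [Pi.mulSingle_one]; rfl
theorem del_mul (u v : V) (g h : G u) : del u v (g * h) = del u v g * del u v h := by
  unfold del; rw [Pi.mulSingle_mul]; rfl

/-- image of the generators in the semidirect product -/
noncomputable def gen (v u : V) : G u →* NN Γ ι v ⋊[actAut Γ ι v] H where
  toFun g := ⟨of (M := fun _ : H ⧸ starSub Γ ι v => G v) (i := base Γ ι v) (del u v g), ι u g⟩
  map_one' := by
    rw [del_one, map_one, map_one]; rfl
  map_mul' g h := by
    ext
    · rw [SemidirectProduct.mul_left, actAut_apply, perm_of, del_mul, map_mul]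
      by_cases huv : u = v
      · subst huv
        rw [(act_base Γ ι).2 (mem_starSub Γ ι (Or.inl rfl) g)]
      · rw [del_ne huv h, map_one, map_one]
    · simp

theorem gen_comm (hcomm : ∀ v w, Γ.Adj v w → ∀ (g : G v) (h : G w), Commute (ι v g) (ι w h))
    (v u w : V) (huw : Γ.Adj u w) (g : G u) (h : G w) :
    Commute (gen Γ ι v u g) (gen Γ ι v w h) := by
  have hne : u ≠ w := huw.ne
  apply SemidirectProduct.ext
  · rw [SemidirectProduct.mul_left, SemidirectProduct.mul_left, actAut_apply, actAut_apply]
    change of (M := fun _ : H ⧸ starSub Γ ι v => G v) (i := base Γ ι v) (del u v g) *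
        perm (act Γ ι v (ι u g))
          (of (M := fun _ : H ⧸ starSub Γ ι v => G v) (i := base Γ ι v) (del w v h)) =
      of (M := fun _ : H ⧸ starSub Γ ι v => G v) (i := base Γ ι v) (del w v h) *
        perm (act Γ ι v (ι w h))
          (of (M := fun _ : H ⧸ starSub Γ ι v => G v) (i := base Γ ι v) (del u v g))
    rw [perm_of, perm_of]
    by_cases huv : u = v
    · subst huv
      rw [del_ne (Ne.symm hne) h, map_one, map_one, mul_one, one_mul,
        (act_base Γ ι).2 (mem_starSub Γ ι (Or.inr huw) h)]
    · by_cases hwv : w = v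
      · subst hwv
        rw [del_ne hne g, map_one, map_one, mul_one, one_mul,
          (act_base Γ ι).2 (mem_starSub Γ ι (Or.inr huw.symm) g)]
      · rw [del_ne huv g, del_ne hwv h, map_one, map_one, map_one]
  · exact hcomm u w huw g h

variable {Γ ι}

/-- The crossed homomorphism recording the `v`-syllables. -/
theorem exists_cocycle
    (hcomm : ∀ v w, Γ.Adj v w → ∀ (g : G v) (h : G w), Commute (ι v g) (ι w h))
    (huniv : ∀ (K : Type) [Group K] (φ : ∀ v, G v →* K),
        (∀ v w, Γ.Adj v w → ∀ (g : G v) (h : G w), Commute (φ v g) (φ w h)) →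
        ∃! f : H →* K, ∀ v, f.comp (ι v) = φ v) (v : V) :
    ∃ n : H → NN Γ ι v, (∀ x y, n (x * y) = n x * perm (act Γ ι v x) (n y)) ∧
      ∀ u (g : G u), n (ι u g) =
        of (M := fun _ : H ⧸ starSub Γ ι v => G v) (i := base Γ ι v) (del u v g) := by
  obtain ⟨f, hf, -⟩ := huniv (NN Γ ι v ⋊[actAut Γ ι v] H) (gen Γ ι v) (gen_comm Γ ι hcomm v)
  have hr : ∀ x, (f x).right = x := by
    obtain ⟨f', -, hf'⟩ := huniv H ι hcomm
    have h1 := hf' (SemidirectProduct.rightHom.comp f) (by
      intro u
      ext g
      have := DFunLike.congr_fun (hf u) g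
      simp only [MonoidHom.comp_apply] at this ⊢
      rw [this]; rfl)
    have h2 := hf' (MonoidHom.id H) (by intro u; ext g; rfl)
    intro x
    have h3 := DFunLike.congr_fun (h1.trans h2.symm) x
    exact h3
  refine ⟨fun x => (f x).left, ?_, ?_⟩
  · intro x y
    change (f (x * y)).left = _
    rw [map_mul, SemidirectProduct.mul_left, actAut_apply, hr]
  · intro u g
    have := DFunLike.congr_fun (hf u) g
    simp only [MonoidHom.comp_apply] at this
    change (f (ι u g)).left = _
    rw [this]; rfl

variable (Γ ι)

/-- evaluation of a word -/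
def ev (w : List (Σ u, G u)) : H := (w.map (fun s => ι s.1 s.2)).prod

theorem ev_nil : ev ι [] = 1 := rfl
theorem ev_cons (s : Σ u, G u) (w : List (Σ u, G u)) : ev ι (s :: w) = ι s.1 s.2 * ev ι w := by
  simp [ev]
theorem ev_append (w w' : List (Σ u, G u)) : ev ι (w ++ w') = ev ι w * ev ι w' := by
  simp [ev]

/-- words of minimal syllable length -/
def Geo (w : List (Σ u, G u)) : Prop := ∀ w', ev ι w' = ev ι w → w.length ≤ w'.length

variable {Γ ι}

theorem Geo.mid {a b c : List (Σ u, G u)} (h : Geo ι (a ++ b ++ c)) : Geo ι b := by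
  intro b' hb'
  have := h (a ++ b' ++ c) (by rw [ev_append, ev_append, ev_append, ev_append, hb'])
  simp only [List.length_append] at this
  omega

theorem Geo.tail {s : Σ u, G u} {b : List (Σ u, G u)} (h : Geo ι (s :: b)) : Geo ι b := by
  have : Geo ι ([s] ++ b ++ []) := by simpa using h
  exact this.mid

theorem Geo.ne_one {s : Σ u, G u} {b : List (Σ u, G u)} (h : Geo ι (s :: b)) : s.2 ≠ 1 := by
  intro h1
  have := h b (by rw [ev_cons, h1, map_one, one_mul])
  simp at this

theorem Geo.ne_one_of_mem {s : Σ u, G u} {b : List (Σ u, G u)} (h : Geo ι b) (hs : s ∈ b) :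
    s.2 ≠ 1 := by
  induction b with
  | nil => simp at hs
  | cons a b ih =>
    rcases List.mem_cons.1 hs with rfl | hs
    · exact h.ne_one
    · exact ih h.tail hs

theorem Geo.exists_not_adj
    (hcomm : ∀ v w, Γ.Adj v w → ∀ (g : G v) (h : G w), Commute (ι v g) (ι w h))
    {v : V} {g g' : G v} {a b : List (Σ u, G u)}
    (h : Geo ι (⟨v, g⟩ :: (a ++ ⟨v, g'⟩ :: b))) : ∃ s ∈ a, ¬ Γ.Adj v s.1 := by
  by_contra hcon
  push Not at hcon
  have hc : Commute (ev ι a) (ι v g') := by
    clear h
    induction a with
    | nil => rw [ev_nil]; exact Commute.one_left _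
    | cons s a ih =>
      rw [ev_cons]
      apply Commute.mul_left
      · exact (hcomm v s.1 (hcon s (List.mem_cons_self)) g' s.2).symm
      · exact ih (fun t ht => hcon t (List.mem_cons_of_mem _ ht))
  have := h (⟨v, g * g'⟩ :: (a ++ b)) (by
    rw [ev_cons, ev_cons, ev_append, ev_append, ev_cons, map_mul]
    simp only [mul_assoc]
    rw [← mul_assoc (ι v g') (ev ι a), ← hc.eq, mul_assoc])
  simp at this

variable (Γ ι)

/-- expected list of `v`-syllables with their positions -/
noncomputable def expd (v : V) : List (Σ u, G u) → List (Σ _ : H ⧸ starSub Γ ι v, G v)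
  | [] => []
  | s :: w => (if s.1 = v then [⟨base Γ ι v, del s.1 v s.2⟩] else []) ++
      (expd v w).map (fun t => ⟨act Γ ι v (ι s.1 s.2) t.1, t.2⟩)

theorem expd_nil (v : V) : expd Γ ι v [] = [] := rfl

theorem expd_cons_ne {v : V} {s : Σ u, G u} (h : s.1 ≠ v) (w : List (Σ u, G u)) :
    expd Γ ι v (s :: w) = (expd Γ ι v w).map (fun t => ⟨act Γ ι v (ι s.1 s.2) t.1, t.2⟩) := by
  rw [expd, if_neg h, List.nil_append]

theorem expd_cons_same (v : V) (g : G v) (w : List (Σ u, G u)) :
    expd Γ ι v (⟨v, g⟩ :: w) = ⟨base Γ ι v, g⟩ ::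
      (expd Γ ι v w).map (fun t => ⟨act Γ ι v (ι v g) t.1, t.2⟩) := by
  rw [expd, if_pos rfl, del_same, List.singleton_append]

/-- reduced lists -/
def Red {I A : Type} [Group A] (l : List (Σ _ : I, A)) : Prop :=
  (∀ s ∈ l, s.2 ≠ 1) ∧ l.IsChain (fun s s' => s.1 ≠ s'.1)

variable {Γ ι}

theorem Red.map {I A : Type} [Group A] {l : List (Σ _ : I, A)} (h : Red l) {e : I → I}
    (he : Function.Injective e) : Red (l.map (fun t => (⟨e t.1, t.2⟩ : Σ _ : I, A))) := by
  refine ⟨?_, ?_⟩
  · intro s hs
    rw [List.mem_map] at hs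
    obtain ⟨t, ht, rfl⟩ := hs
    exact h.1 t ht
  · rw [List.isChain_map]
    exact h.2.imp (fun a b hab h => hab (he h))

/-- first `v`-syllable of a word -/
theorem expd_head (v : V) (w : List (Σ u, G u)) (t : Σ _ : H ⧸ starSub Γ ι v, G v)
    (ht : t ∈ (expd Γ ι v w).head?) :
    ∃ (a : List (Σ u, G u)) (g : G v) (b : List (Σ u, G u)), w = a ++ ⟨v, g⟩ :: b ∧
      (∀ s ∈ a, s.1 ≠ v) ∧ t.1 = act Γ ι v (ev ι a) (base Γ ι v) := by
  induction w generalizing t with
  | nil => simp [expd] at ht
  | cons s w ih =>
    by_cases hs : s.1 = v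
    · obtain ⟨u, g⟩ := s
      simp only at hs
      subst hs
      refine ⟨[], g, w, rfl, by simp, ?_⟩
      rw [expd_cons_same] at ht
      simp only [List.head?_cons, Option.mem_def, Option.some.injEq] at ht
      rw [← ht, ev_nil, act_one]
      rfl
    · rw [expd_cons_ne Γ ι hs] at ht
      rw [List.head?_map, Option.mem_def, Option.map_eq_some_iff] at ht
      obtain ⟨t', ht', rfl⟩ := ht
      obtain ⟨a, g, b, rfl, ha, hb⟩ := ih t' ht'
      refine ⟨s :: a, g, b, rfl, ?_, ?_⟩
      · intro r hr
        rcases List.mem_cons.1 hr with rfl | hr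
        · exact hs
        · exact ha r hr
      · simp only
        rw [hb, ev_cons, ← act_comp]
        rfl

theorem mem_expd_of_mem {v : V} {g : G v} {w : List (Σ u, G u)} (h : ⟨v, g⟩ ∈ w) :
    expd Γ ι v w ≠ [] := by
  induction w with
  | nil => simp at h
  | cons s w ih =>
    rcases List.mem_cons.1 h with rfl | h
    · rw [expd_cons_same]; simp
    · have := ih h
      rw [expd]
      simp [this]

/-- `n` computed on words -/
theorem cocycle_ev {v : V} {n : H → NN Γ ι v}
    (hn : ∀ x y, n (x * y) = n x * perm (act Γ ι v x) (n y))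
    (hn' : ∀ u (g : G u), n (ι u g) =
        of (M := fun _ : H ⧸ starSub Γ ι v => G v) (i := base Γ ι v) (del u v g))
    (w : List (Σ u, G u)) :
    n (ev ι w) = ((expd Γ ι v w).map
      (fun t => of (M := fun _ : H ⧸ starSub Γ ι v => G v) (i := t.1) t.2)).prod := by
  have hn1 : n 1 = 1 := by
    have := hn 1 1
    rw [act_one, perm_id] at this
    simpa using this
  induction w with
  | nil => rw [ev_nil, expd_nil, hn1]; rfl
  | cons s w ih =>
    rw [ev_cons, hn, hn', ih, map_list_prod, List.map_map]
    by_cases hs : s.1 = v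
    · obtain ⟨u, g⟩ := s
      simp only at hs
      subst hs
      rw [expd_cons_same, List.map_cons, List.prod_cons, List.map_map, del_same]
      simp [Function.comp_def]
    · rw [expd_cons_ne Γ ι hs, del_ne hs, map_one, one_mul, List.map_map]
      simp [Function.comp_def]

theorem lst_of_red {I A : Type} [Group A] (l : List (Σ _ : I, A)) (h : Red l) :
    lst ((l.map (fun t => of (M := fun _ : I => A) (i := t.1) t.2)).prod) = l :=
  lst_prod (⟨l, h.1, h.2⟩ : Word (fun _ : I => A))

/-- The main combinatorial fact: words of minimal length have reduced lists of `v`-syllables. -/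
theorem red_expd
    (hcomm : ∀ v w, Γ.Adj v w → ∀ (g : G v) (h : G w), Commute (ι v g) (ι w h))
    (huniv : ∀ (K : Type) [Group K] (φ : ∀ v, G v →* K),
        (∀ v w, Γ.Adj v w → ∀ (g : G v) (h : G w), Commute (φ v g) (φ w h)) →
        ∃! f : H →* K, ∀ v, f.comp (ι v) = φ v)
    (k : ℕ) (w : List (Σ u, G u)) (hk : w.length ≤ k) (hw : Geo ι w) (v : V) :
    Red (expd Γ ι v w) := by
  induction k generalizing w v with
  | zero =>
    have : w = [] := List.length_eq_zero_iff.1 (by omega)
    subst this
    exact ⟨by simp [expd], by simp [expd]⟩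
  | succ k ih =>
    cases w with
    | nil => exact ⟨by simp [expd], by simp [expd]⟩
    | cons s w =>
      have hkw : w.length ≤ k := by simpa using hk
      have h1 := ih w hkw hw.tail v
      by_cases hs : s.1 = v
      · obtain ⟨u, g⟩ := s
        simp only at hs
        subst hs
        rw [expd_cons_same]
        have h2 := h1.map (act_inj Γ ι u (ι u g))
        refine ⟨?_, ?_⟩
        · intro t ht
          rcases List.mem_cons.1 ht with rfl | ht
          · exact hw.ne_one
          · exact h2.1 t ht
        · rw [List.isChain_cons]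
          refine ⟨?_, h2.2⟩
          intro t ht
          rw [List.head?_map, Option.mem_def, Option.map_eq_some_iff] at ht
          obtain ⟨t', ht', rfl⟩ := ht
          obtain ⟨a, g', b, rfl, ha, hb⟩ := expd_head u w t' ht'
          simp only
          intro hcon
          rw [hb] at hcon
          have h3 : act Γ ι u (ι u g * ev ι a) (base Γ ι u) = base Γ ι u := by
            rw [← act_comp]
            exact hcon.symm
          rw [act_base] at h3
          have h4 : ev ι a ∈ starSub Γ ι u := by
            have h5 := (starSub Γ ι u).mul_mem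
              ((starSub Γ ι u).inv_mem (mem_starSub Γ ι (Or.inl rfl) g)) h3
            simpa using h5
          obtain ⟨r, hr, hadj⟩ := hw.exists_not_adj hcomm
          have hru : r.1 ≠ u := ha r hr
          obtain ⟨y, c⟩ := r
          simp only at hru hadj
          -- the `y`-cocycle of `ev a` is nontrivial
          obtain ⟨n, hn, hn'⟩ := exists_cocycle hcomm huniv y
          have hgeo : Geo ι a := by
            have h6 : Geo ι ([⟨u, g⟩] ++ a ++ (⟨u, g'⟩ :: b)) := by simpa using hw
            exact h6.mid
          have hlen : a.length ≤ k := by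
            simp only [List.length_append, List.length_cons] at hkw
            omega
          have h7 := ih a hlen hgeo y
          have h8 := cocycle_ev hn hn' a
          have h9 : lst (n (ev ι a)) = expd Γ ι y a := by
            rw [h8]; exact lst_of_red _ h7
          have h10 : n (ev ι a) ≠ 1 := by
            intro h11
            rw [h11, lst_one] at h9
            exact mem_expd_of_mem hr h9.symm
          -- but it is trivial on the star subgroup
          apply h10
          have hn1 : n 1 = 1 := by
            have := hn 1 1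
            rw [act_one, perm_id] at this
            simpa using this
          let S : Subgroup H :=
            { carrier := {x | n x = 1}
              mul_mem' := by
                intro x x' hx hx'
                change n (x * x') = 1
                rw [hn, show n x = 1 from hx, show n x' = 1 from hx', map_one, one_mul]
              one_mem' := hn1
              inv_mem' := by
                intro x hx
                change n x⁻¹ = 1
                have h12 := hn x⁻¹ x
                rw [inv_mul_cancel, hn1, show n x = 1 from hx, map_one, mul_one] at h12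
                exact h12.symm }
          have hS : starSub Γ ι u ≤ S := by
            apply iSup_le
            rintro ⟨z, hz⟩
            rintro _ ⟨c', rfl⟩
            change n (ι z c') = 1
            have hzy : z ≠ y := by
              rintro rfl
              rcases hz with hz | hz
              · exact hru hz
              · exact hadj hz
            rw [hn', del_ne hzy, map_one]
          exact hS h4
      · rw [expd_cons_ne Γ ι hs]
        exact h1.map (act_inj Γ ι v _)

end

end Pool.Agent.Lib.MP_35943b_gt
end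

section

set_option autoImplicit false

namespace Pool.Agent.Lib.MP_35943b_gt

open Monoid Monoid.CoprodI

open Classical in
section

variable {V : Type} {Γ : SimpleGraph V} {G : V → Type} [∀ v, Group (G v)]
  {H : Type} [Group H] {ι : ∀ v, G v →* H}

/-- The finite-set form gives the coloured form for a proper length function. -/
theorem apc_of_finset {A : Type} [Group A] {len : A → ℕ}
    (hfin : ∀ R, {g | len g ≤ R}.Finite)
    (hA : ∀ F : ℕ → Finset A, ∃ n : ℕ, ∃ 𝒰 : Fin n → Set (Set A),
        ∃ L : Finset A,
          (∀ i, ∀ U ∈ 𝒰 i, ∀ x ∈ U, ∀ y ∈ U, x⁻¹ * y ∈ L) ∧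
          (∀ i : Fin n, ∀ U ∈ 𝒰 i, ∀ U' ∈ 𝒰 i, U ≠ U' →
            ∀ x ∈ U, ∀ y ∈ U', x⁻¹ * y ∉ F i.val) ∧
          (∀ x : A, ∃ i, ∃ U ∈ 𝒰 i, x ∈ U)) :
    APC (fun x y : A => len (x⁻¹ * y)) := by
  intro R
  obtain ⟨n, 𝒰, L, h1, h2, h3⟩ := hA (fun i => (hfin (R i)).toFinset)
  choose i U hU hx using h3
  refine ⟨Set A, n, L.sup len, fun x => (i x).val, U, fun x => (i x).isLt, ?_, ?_⟩
  · intro x y _ hxy
    have h4 := h1 (i x) (U x) (hU x) x (hx x) y (by rw [hxy]; exact hx y)
    exact Finset.le_sup (f := len) h4
  · intro x y hc hxy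
    have hii : i y = i x := Fin.ext hc.symm
    have h4 := h2 (i x) (U x) (hU x) (U y) (hii ▸ hU y) hxy x (hx x) y (hx y)
    rw [Set.Finite.mem_toFinset] at h4
    change ¬ (len (x⁻¹ * y) ≤ R (i x).val) at h4
    change R (i x).val < len (x⁻¹ * y)
    omega

/-- the coloured form gives the finite-set form -/
theorem finset_of_apc {A : Type} [Group A] {d : A → A → ℕ} {nrm : A → ℕ}
    (hd : ∀ x y, d x y = nrm (x⁻¹ * y))
    (hfin : ∀ R, {g | nrm g ≤ R}.Finite) (hA : APC d) :
    ∀ F : ℕ → Finset A, ∃ n : ℕ, ∃ 𝒰 : Fin n → Set (Set A),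
        ∃ L : Finset A,
          (∀ i, ∀ U ∈ 𝒰 i, ∀ x ∈ U, ∀ y ∈ U, x⁻¹ * y ∈ L) ∧
          (∀ i : Fin n, ∀ U ∈ 𝒰 i, ∀ U' ∈ 𝒰 i, U ≠ U' →
            ∀ x ∈ U, ∀ y ∈ U', x⁻¹ * y ∉ F i.val) ∧
          (∀ x : A, ∃ i, ∃ U ∈ 𝒰 i, x ∈ U) := by
  intro F
  obtain ⟨T, n, D, c, t, h1, h2, h3⟩ := hA (fun i => (F i).sup nrm)
  refine ⟨n, fun i => {U | ∃ x, c x = i.val ∧ U = {y | c y = i.val ∧ t y = t x}},
    (hfin D).toFinset, ?_, ?_, ?_⟩
  · rintro i U ⟨z, hz, rfl⟩ x ⟨hx1, hx2⟩ y ⟨hy1, hy2⟩
    rw [Set.Finite.mem_toFinset]
    change nrm (x⁻¹ * y) ≤ D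
    rw [← hd]
    exact h2 x y (hx1.trans hy1.symm) (hx2.trans hy2.symm)
  · rintro i U ⟨z, hz, rfl⟩ U' ⟨z', hz', rfl⟩ hne x ⟨hx1, hx2⟩ y ⟨hy1, hy2⟩ hF
    have htt : t x ≠ t y := by
      intro h
      apply hne
      rw [← hx2, ← hy2, h]
    have h4 := h3 x y (hx1.trans hy1.symm) htt
    rw [hd, hx1] at h4
    have h5 : nrm (x⁻¹ * y) ≤ (F i.val).sup nrm := Finset.le_sup (f := nrm) hF
    omega
  · intro x
    exact ⟨⟨c x, h1 x⟩, _, ⟨x, rfl, rfl⟩, rfl, rfl⟩

/-- every element is the value of a word -/
theorem exists_word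
    (hcomm : ∀ v w, Γ.Adj v w → ∀ (g : G v) (h : G w), Commute (ι v g) (ι w h))
    (huniv : ∀ (K : Type) [Group K] (φ : ∀ v, G v →* K),
        (∀ v w, Γ.Adj v w → ∀ (g : G v) (h : G w), Commute (φ v g) (φ w h)) →
        ∃! f : H →* K, ∀ v, f.comp (ι v) = φ v) (x : H) :
    ∃ w, ev ι w = x := by
  let S : Subgroup H :=
    { carrier := Set.range (ev ι)
      mul_mem' := by
        rintro _ _ ⟨w, rfl⟩ ⟨w', rfl⟩
        exact ⟨w ++ w', ev_append ι w w'⟩
      one_mem' := ⟨[], rfl⟩
      inv_mem' := by
        rintro _ ⟨w, rfl⟩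
        induction w with
        | nil => exact ⟨[], by simp [ev]⟩
        | cons s w ih =>
          obtain ⟨w', hw'⟩ := ih
          refine ⟨w' ++ [⟨s.1, s.2⁻¹⟩], ?_⟩
          rw [ev_append, ev_cons, hw', ev_cons, ev_nil]
          simp }
  have hS : ∀ v (g : G v), ι v g ∈ S := fun v g => ⟨[⟨v, g⟩], by simp [ev]⟩
  let φ : ∀ v, G v →* S := fun v => (ι v).codRestrict S (hS v)
  obtain ⟨f, hf, -⟩ := huniv S φ (by
    intro v w hvw g h
    have := hcomm v w hvw g h
    apply Subtype.ext
    exact this)
  obtain ⟨f', -, hf'⟩ := huniv H ι hcomm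
  have h1 := hf' (S.subtype.comp f) (by
    intro v
    ext g
    have := DFunLike.congr_fun (hf v) g
    simp only [MonoidHom.comp_apply] at this ⊢
    rw [this]; rfl)
  have h2 := hf' (MonoidHom.id H) (by intro v; ext g; rfl)
  have h3 := DFunLike.congr_fun (h1.trans h2.symm) x
  have h4 : ((f x : S) : H) = x := h3
  obtain ⟨w, hw⟩ := (f x).2
  exact ⟨w, hw.trans h4⟩

/-- every element is the value of a word of minimal length -/
theorem exists_geo {x : H} (hx : ∃ w, ev ι w = x) : ∃ w, ev ι w = x ∧ Geo ι w := by
  have h : ∃ k, ∃ w, ev ι w = x ∧ w.length = k := by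
    obtain ⟨w, hw⟩ := hx
    exact ⟨_, w, hw, rfl⟩
  obtain ⟨w, hw, hl⟩ := Nat.find_spec h
  refine ⟨w, hw, ?_⟩
  intro w' hw'
  rw [hl]
  exact Nat.find_min' h ⟨w', hw'.trans hw, rfl⟩

theorem length_le_wlen {I A : Type} [Group A] {len : A → ℕ} (hpos : ∀ g, len g = 0 → g = 1)
    (l : List (Σ _ : I, A)) (h : ∀ s ∈ l, s.2 ≠ 1) : l.length ≤ wlen len l := by
  induction l with
  | nil => simp
  | cons s l ih =>
    have h1 := ih (fun t ht => h t (List.mem_cons_of_mem _ ht))
    have h2 : len s.2 ≠ 0 := fun h0 => h s List.mem_cons_self (hpos _ h0)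
    simp only [List.length_cons, wlen_cons]
    omega

theorem len_le_wlen_expd (len : ∀ v, G v → ℕ) {v : V} {g : G v} {w : List (Σ u, G u)}
    (h : ⟨v, g⟩ ∈ w) : len v g ≤ wlen (len v) (expd Γ ι v w) := by
  induction w with
  | nil => simp at h
  | cons s w ih =>
    by_cases hs : s.1 = v
    · obtain ⟨u, g'⟩ := s
      simp only at hs
      subst hs
      rw [expd_cons_same, wlen_cons, wlen_map]
      rcases List.mem_cons.1 h with h | h
      · rw [Sigma.mk.injEq] at h
        have := eq_of_heq h.2
        subst this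
        exact Nat.le_add_right _ _
      · exact (ih h).trans (Nat.le_add_left _ _)
    · rw [expd_cons_ne Γ ι hs, wlen_map]
      rcases List.mem_cons.1 h with h | h
      · exact absurd (by rw [← h]) hs
      · exact ih h

theorem length_eq_sum_expd [Fintype V] (w : List (Σ u, G u)) :
    w.length = ∑ v, (expd Γ ι v w).length := by
  induction w with
  | nil => simp [expd]
  | cons s w ih =>
    have h1 : ∀ v, (expd Γ ι v (s :: w)).length =
        (if s.1 = v then 1 else 0) + (expd Γ ι v w).length := by
      intro v
      rw [expd, List.length_append, List.length_map]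
      congr 1
      split_ifs <;> rfl
    simp only [h1, Finset.sum_add_distrib]
    rw [← ih, List.length_cons]
    simp [add_comm]

/-- The theorem for graph products. -/
theorem main_thm (V : Type) [Fintype V] (Γ : SimpleGraph V) (G : V → Type) [∀ v, Group (G v)]
      [∀ v, Countable (G v)] (H : Type) [Group H] (ι : ∀ v, G v →* H)
      (hcomm : ∀ v w, Γ.Adj v w → ∀ (g : G v) (h : G w), Commute (ι v g) (ι w h))
      (huniv : ∀ (K : Type) [Group K] (φ : ∀ v, G v →* K),
        (∀ v w, Γ.Adj v w → ∀ (g : G v) (h : G w), Commute (φ v g) (φ w h)) →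
        ∃! f : H →* K, ∀ v, f.comp (ι v) = φ v)
      (hG : ∀ v, ∀ F : ℕ → Finset (G v), ∃ n : ℕ, ∃ 𝒰 : Fin n → Set (Set (G v)),
        ∃ L : Finset (G v),
          (∀ i, ∀ U ∈ 𝒰 i, ∀ x ∈ U, ∀ y ∈ U, x⁻¹ * y ∈ L) ∧
          (∀ i : Fin n, ∀ U ∈ 𝒰 i, ∀ U' ∈ 𝒰 i, U ≠ U' →
            ∀ x ∈ U, ∀ y ∈ U', x⁻¹ * y ∉ F i.val) ∧
          (∀ x : G v, ∃ i, ∃ U ∈ 𝒰 i, x ∈ U)) :
      (∀ F : ℕ → Finset H, ∃ n : ℕ, ∃ 𝒰 : Fin n → Set (Set H),
        ∃ L : Finset H,
          (∀ i, ∀ U ∈ 𝒰 i, ∀ x ∈ U, ∀ y ∈ U, x⁻¹ * y ∈ L) ∧
          (∀ i : Fin n, ∀ U ∈ 𝒰 i, ∀ U' ∈ 𝒰 i, U ≠ U' →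
            ∀ x ∈ U, ∀ y ∈ U', x⁻¹ * y ∉ F i.val) ∧
          (∀ x : H, ∃ i, ∃ U ∈ 𝒰 i, x ∈ U)) := by
  choose len hlen hpos hfin using fun v => exists_proper_len (G v)
  choose n hn hn' using fun v => exists_cocycle hcomm huniv v
  have hn1 : ∀ v, n v 1 = 1 := by
    intro v
    have := hn v 1 1
    rw [act_one, perm_id] at this
    simpa using this
  -- the left-invariant pseudometric attached to `v`
  let nrm : V → H → ℕ := fun v x => wlen (len v) (lst (n v x))
  let d : V → H → H → ℕ := fun v x y => dst (len v) (lst (n v x)) (lst (n v y))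
  have hd : ∀ v x y, d v x y = nrm v (x⁻¹ * y) := by
    intro v x y
    have h1 : n v (x⁻¹ * y) = perm (act Γ ι v x⁻¹) ((n v x)⁻¹ * n v y) := by
      have h2 := hn v x⁻¹ x
      rw [inv_mul_cancel, hn1] at h2
      rw [hn, map_mul, map_inv, ← eq_inv_of_mul_eq_one_left h2.symm]
    change dst (len v) (lst (n v x)) (lst (n v y)) = wlen (len v) (lst (n v (x⁻¹ * y)))
    rw [h1, lst_perm _ (act_inj Γ ι v _), wlen_map, dst_lst (hlen v)]
  have hapc : ∀ v, APC (d v) := by
    intro v
    have h1 : APC (fun x y : G v => len v (x⁻¹ * y)) := apc_of_finset (hfin v) (hG v)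
    exact (apc_tree (I := H ⧸ starSub Γ ι v) (hlen v) h1).pullback (fun x => lst (n v x))
  have hsup := APC.finset_sup d hapc Finset.univ
  refine finset_of_apc (nrm := fun x => Finset.univ.sup (fun v => nrm v x)) ?_ ?_ hsup
  · intro x y
    simp only [hd]
  · intro R
    have hS : {s : Σ v, G v | len s.1 s.2 ≤ R}.Finite := by
      have h1 : {s : Σ v, G v | len s.1 s.2 ≤ R} = ⋃ v, Sigma.mk v '' {g | len v g ≤ R} := by
        ext ⟨v, g⟩
        simp only [Set.mem_setOf_eq, Set.mem_iUnion, Set.mem_image]
        constructor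
        · intro h
          exact ⟨v, g, h, rfl⟩
        · rintro ⟨v', g', h, h'⟩
          rw [Sigma.mk.injEq] at h'
          obtain ⟨rfl, h'⟩ := h'
          rw [← eq_of_heq h']
          exact h
      rw [h1]
      exact Set.finite_iUnion (fun v => (hfin v R).image _)
    apply ((finite_lists _ hS (Fintype.card V * R)).image (ev ι)).subset
    intro x hx
    have hx' : ∀ v, nrm v x ≤ R := by
      intro v
      have h2 : nrm v x ≤ Finset.univ.sup (fun v => nrm v x) :=
        Finset.le_sup (f := fun v => nrm v x) (Finset.mem_univ v)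
      exact h2.trans hx
    obtain ⟨w, hw, hgeo⟩ := exists_geo (exists_word hcomm huniv x)
    have hred := fun v => red_expd hcomm huniv w.length w le_rfl hgeo v
    have hlst : ∀ v, lst (n v x) = expd Γ ι v w := by
      intro v
      rw [← hw, cocycle_ev (hn v) (hn' v) w]
      exact lst_of_red _ (hred v)
    have hle : ∀ v, wlen (len v) (expd Γ ι v w) ≤ R := by
      intro v
      have := hx' v
      simp only [nrm, hlst] at this
      exact this
    refine ⟨w, ⟨?_, ?_⟩, hw⟩
    · rw [length_eq_sum_expd (Γ := Γ) (ι := ι) w]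
      calc ∑ v, (expd Γ ι v w).length ≤ ∑ _v : V, R :=
            Finset.sum_le_sum (fun v _ => (length_le_wlen (hpos v) _ (hred v).1).trans (hle v))
        _ = Fintype.card V * R := by simp
    · rintro ⟨v, g⟩ hs
      exact (len_le_wlen_expd len hs).trans (hle v)

end

end Pool.Agent.Lib.MP_35943b_gt
end
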